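import Pool.Agent.Q208.DB.Sym

/-!
# Complex alternating matrices
-/

set_option autoImplicit false

open Matrix Module

namespace Q208.DB

open Q207.DB

lemma rev_inner {m : ℕ} (i : Fin m) :
    Fin.rev (Fin.succ (Fin.castSucc i)) = Fin.succ (Fin.castSucc (Fin.rev i)) := by
  ext
  simp only [Fin.val_rev, Fin.val_succ, Fin.val_castSucc]
  have := i.2
  omega

/-- a symplectic basis -/
theorem alt_basis (n : ℕ) : ∀ (V : Type) [AddCommGroup V] [Module ℂ V] [FiniteDimensional ℂ V]
    (ω : V →ₗ[ℂ] V →ₗ[ℂ] ℂ), (∀ x, ω x x = 0) → (∀ x, (∀ y, ω x y = 0) → x = 0) →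
    finrank ℂ V = n → ∃ v : Fin n → V, ∀ i j, ω (v i) (v j) = Jst n i j := by
  induction n using Nat.twoStepInduction with
  | zero =>
    intro V _ _ _ ω _ _ _
    exact ⟨fun i => i.elim0, fun i => i.elim0⟩
  | one =>
    intro V _ _ _ ω halt hnd hn
    exfalso
    obtain ⟨x, hx⟩ : ∃ x : V, x ≠ 0 := by
      have : Nontrivial V := Module.nontrivial_of_finrank_pos (R := ℂ) (by omega)
      exact exists_ne 0
    apply hx
    apply hnd
    intro y
    obtain ⟨t, ht⟩ := (finrank_eq_one_iff_of_nonzero' x hx).mp hn y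
    rw [← ht, map_smul, halt, smul_zero]
  | more m ih _ =>
    intro V _ _ _ ω halt hnd hn
    have hskew : ∀ x y, ω x y = -ω y x := by
      intro x y
      have h := halt (x + y)
      simp only [map_add, LinearMap.add_apply, halt, zero_add, add_zero] at h
      exact eq_neg_of_add_eq_zero_right h
    obtain ⟨e, he⟩ : ∃ x : V, x ≠ 0 := by
      have : Nontrivial V := Module.nontrivial_of_finrank_pos (R := ℂ) (by omega)
      exact exists_ne 0
    obtain ⟨f₀, hf₀⟩ : ∃ y, ω e y ≠ 0 := by
      by_contra h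
      push Not at h
      exact he (hnd e h)
    obtain ⟨f, hf⟩ : ∃ f, ω e f = 1 :=
      ⟨(ω e f₀)⁻¹ • f₀, by rw [map_smul, smul_eq_mul, inv_mul_cancel₀ hf₀]⟩
    have hfe : ω f e = -1 := by rw [hskew, hf]
    -- the orthogonal complement
    let φ : V →ₗ[ℂ] ℂ × ℂ := (ω e).prod (ω f)
    have hφ : ∀ x, φ x = (ω e x, ω f x) := fun x => rfl
    have hsurj : LinearMap.range φ = ⊤ := by
      rw [LinearMap.range_eq_top]
      rintro ⟨a, b⟩
      refine ⟨a • f - b • e, ?_⟩
      rw [hφ]
      simp only [map_sub, map_smul, hf, hfe, halt, smul_eq_mul, mul_one, mul_zero, sub_zero,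
        zero_sub, mul_neg, neg_neg]
    have hdim : finrank ℂ (LinearMap.ker φ) = m := by
      have h1 := LinearMap.finrank_range_add_finrank_ker φ
      rw [hsurj, finrank_top, Module.finrank_prod, Module.finrank_self, hn] at h1
      omega
    have hmem : ∀ x : V, x ∈ LinearMap.ker φ ↔ ω e x = 0 ∧ ω f x = 0 := by
      intro x
      rw [LinearMap.mem_ker, hφ, Prod.mk_eq_zero]
    -- the form on the complement
    let ω' : LinearMap.ker φ →ₗ[ℂ] LinearMap.ker φ →ₗ[ℂ] ℂ :=
      (ω.domRestrict₁₂ (LinearMap.ker φ) (LinearMap.ker φ))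
    have hω' : ∀ x y, ω' x y = ω (x : V) (y : V) := fun x y => rfl
    obtain ⟨w, hw⟩ := ih (LinearMap.ker φ) ω' (fun x => halt _) (by
      intro x hx
      apply Subtype.ext
      apply hnd
      intro y
      obtain ⟨h1, h2⟩ := (hmem x).mp x.2
      have hy : y - ω e y • f + ω f y • e ∈ LinearMap.ker φ := by
        rw [hmem]
        constructor
        · simp only [map_add, map_sub, map_smul, hf, halt, smul_eq_mul, mul_one, mul_zero,
            add_zero, sub_self]
        · simp only [map_add, map_sub, map_smul, hfe, halt, smul_eq_mul, mul_zero, sub_zero,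
            mul_neg, mul_one, add_neg_cancel]
      have h3 := hx ⟨_, hy⟩
      rw [hω'] at h3
      simp only [map_add, map_sub, map_smul, smul_eq_mul] at h3
      rw [hskew (x : V) f, hskew (x : V) e, h1, h2] at h3
      simpa using h3) hdim
    have hwe : ∀ i, ω e (w i) = 0 := fun i => ((hmem _).mp (w i).2).1
    have hwf : ∀ i, ω f (w i) = 0 := fun i => ((hmem _).mp (w i).2).2
    have hwe' : ∀ i, ω (w i : V) e = 0 := fun i => by rw [hskew, hwe, neg_zero]
    have hwf' : ∀ i, ω (w i : V) f = 0 := fun i => by rw [hskew, hwf, neg_zero]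
    refine ⟨Fin.cons e (Fin.snoc (fun i => (w i : V)) f), ?_⟩
    -- the three kinds of indices
    have hlast : (Fin.last (m + 1)) = Fin.succ (Fin.last m) := rfl
    have hcase : ∀ i : Fin (m + 2), i = 0 ∨ i = Fin.succ (Fin.last m) ∨
        ∃ k : Fin m, i = Fin.succ (Fin.castSucc k) := by
      intro i
      refine Fin.cases (Or.inl rfl) (fun j => ?_) i
      refine Fin.lastCases (Or.inr (Or.inl rfl)) (fun k => ?_) j
      exact Or.inr (Or.inr ⟨k, rfl⟩)
    have v0 : (Fin.cons e (Fin.snoc (fun i => (w i : V)) f) : Fin (m + 2) → V) 0 = e :=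
      Fin.cons_zero _ _
    have v1 : (Fin.cons e (Fin.snoc (fun i => (w i : V)) f) : Fin (m + 2) → V)
        (Fin.succ (Fin.last m)) = f := by
      rw [Fin.cons_succ]
      exact Fin.snoc_last _ _
    have v2 : ∀ k : Fin m, (Fin.cons e (Fin.snoc (fun i => (w i : V)) f) : Fin (m + 2) → V)
        (Fin.succ (Fin.castSucc k)) = w k := by
      intro k
      rw [Fin.cons_succ]
      exact Fin.snoc_castSucc (α := fun _ => V) _ _ _
    have r0 : Fin.rev (0 : Fin (m + 2)) = Fin.succ (Fin.last m) := by
      ext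
      simp
    have r1 : Fin.rev (Fin.succ (Fin.last m)) = (0 : Fin (m + 2)) := by
      ext
      simp
    have hJ : ∀ (N : ℕ) (i j : Fin N), Jst N i j =
        if j = Fin.rev i then (if (i : ℕ) < j then 1 else -1) else 0 := fun N i j => rfl
    intro i j
    rw [hJ]
    rcases hcase i with rfl | rfl | ⟨k, rfl⟩ <;> rcases hcase j with rfl | rfl | ⟨l, rfl⟩
    · rw [v0, halt, r0, if_neg (by
        intro h
        have := congrArg Fin.val h
        simp at this)]
    · rw [v0, v1, hf, r0, if_pos rfl, if_pos (by simp)]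
    · rw [v0, v2, hwe, r0, if_neg (by
        intro h
        have := congrArg Fin.val h
        simp only [Fin.val_succ, Fin.val_castSucc, Fin.val_last] at this
        have := l.2
        omega)]
    · rw [v0, v1, hfe, r1, if_pos rfl, if_neg (by simp)]
    · rw [v1, halt, r1, if_neg (by
        intro h
        have := congrArg Fin.val h
        simp at this)]
    · rw [v1, v2, hwf, r1, if_neg (by
        intro h
        have := congrArg Fin.val h
        simp at this)]
    · rw [v0, v2, hwe', rev_inner, if_neg (by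
        intro h
        have := congrArg Fin.val h
        simp at this)]
    · rw [v1, v2, hwf', rev_inner, if_neg (by
        intro h
        have := congrArg Fin.val h
        simp only [Fin.val_succ, Fin.val_castSucc, Fin.val_last] at this
        have := (Fin.rev k).2
        omega)]
    · rw [v2, v2, ← hω', hw, hJ, rev_inner]
      have h1 : (Fin.succ (Fin.castSucc l) = Fin.succ (Fin.castSucc (Fin.rev k))) ↔
          l = Fin.rev k := by
        rw [Fin.succ_inj, Fin.castSucc_inj]
      have h2 : ((Fin.succ (Fin.castSucc k) : Fin (m + 2)) : ℕ) < Fin.succ (Fin.castSucc l) ↔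
          (k : ℕ) < l := by
        simp only [Fin.val_succ, Fin.val_castSucc]
        omega
      simp only [h1, h2]

theorem alt_nf : S_Alt := by
  intro n B hB hu
  have hdet : B.det ≠ 0 := by
    rw [Matrix.isUnit_iff_isUnit_det] at hu
    exact hu.ne_zero
  have hne : Even n := by
    have h1 : B.det = (-1) ^ n * B.det := by
      conv_lhs => rw [← Matrix.det_transpose, hB, Matrix.det_neg, Fintype.card_fin]
    have h2 : (-1 : ℂ) ^ n = 1 := by
      have h3 : ((-1 : ℂ) ^ n - 1) * B.det = 0 := by linear_combination -h1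
      exact sub_eq_zero.mp ((mul_eq_zero.mp h3).resolve_right hdet)
    by_contra h
    rw [Nat.not_even_iff_odd] at h
    rw [h.neg_one_pow] at h2
    norm_num at h2
  refine ⟨hne, ?_⟩
  have hap : ∀ x y, Matrix.toBilin' B x y = x ⬝ᵥ B *ᵥ y := fun x y =>
    Matrix.toBilin'_apply' B x y
  obtain ⟨v, hv⟩ := alt_basis n (Fin n → ℂ) (Matrix.toBilin' B) (by
    intro x
    rw [hap]
    have h1 : x ⬝ᵥ B *ᵥ x = -(x ⬝ᵥ B *ᵥ x) := by
      conv_lhs => rw [Matrix.dotProduct_mulVec, ← Matrix.mulVec_transpose, hB, dotProduct_comm,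
        Matrix.neg_mulVec, dotProduct_neg]
    have h2 : (2 : ℂ) * (x ⬝ᵥ B *ᵥ x) = 0 := by linear_combination h1
    exact (mul_eq_zero.mp h2).resolve_left two_ne_zero) (by
    intro x hx
    have h1 : Bᵀ *ᵥ x = 0 := by
      funext i
      have h2 := hx (Pi.single i 1)
      rw [hap, Matrix.dotProduct_mulVec, ← Matrix.mulVec_transpose] at h2
      simpa using h2
    rw [hB, Matrix.neg_mulVec, neg_eq_zero] at h1
    exact Matrix.eq_zero_of_mulVec_eq_zero hdet h1) (Module.finrank_fin_fun ℂ)
  set P : Matrix (Fin n) (Fin n) ℂ := Matrix.of fun i j => v j i with hP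
  have hG : Pᵀ * B * P = Jst n := by
    ext i j
    rw [hP, gram, ← hap, hv]
  -- the standard matrix is invertible
  have hJJ : Jst n * Jst n = -1 := by
    ext i j
    rw [Matrix.mul_apply, Finset.sum_eq_single (Fin.rev i)]
    · have hJ : ∀ (i j : Fin n), Jst n i j =
        if j = Fin.rev i then (if (i : ℕ) < j then 1 else -1) else 0 := fun i j => rfl
      rw [hJ, hJ, if_pos rfl, Fin.rev_rev, Matrix.neg_apply, Matrix.one_apply]
      by_cases h : j = i
      · subst h
        rw [if_pos rfl, if_pos rfl]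
        obtain ⟨k, hk⟩ := hne
        have h1 := j.2
        rcases Nat.lt_or_ge (j : ℕ) (Fin.rev j : ℕ) with h2 | h2
        · rw [if_pos h2, if_neg (by omega)]
          norm_num
        · have h3 : ((Fin.rev j : Fin n) : ℕ) < j := by
            rw [Fin.val_rev] at h2 ⊢
            omega
          rw [if_neg (by omega), if_pos h3]
          norm_num
      · rw [if_neg h, mul_zero, if_neg (fun h' : i = j => h h'.symm), neg_zero]
    · intro k _ hk
      have : Jst n i k = 0 := if_neg hk
      rw [this, zero_mul]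
    · intro h
      exact absurd (Finset.mem_univ _) h
  have hPdet : P.det ≠ 0 := by
    intro h0
    have h1 := congrArg Matrix.det hG
    rw [Matrix.det_mul, h0, mul_zero] at h1
    have h2 := congrArg Matrix.det hJJ
    rw [Matrix.det_mul, ← h1, mul_zero, Matrix.det_neg, Matrix.det_one, mul_one] at h2
    exact pow_ne_zero _ (by norm_num) h2.symm
  have hPu : IsUnit P.det := isUnit_iff_ne_zero.mpr hPdet
  refine ⟨P⁻¹, ?_⟩
  rw [← hG]
  calc (P⁻¹)ᵀ * (Pᵀ * B * P) * P⁻¹ = (P * P⁻¹)ᵀ * B * (P * P⁻¹) := by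
        rw [Matrix.transpose_mul]
        simp only [Matrix.mul_assoc]
    _ = B := by
        rw [Matrix.mul_nonsing_inv P hPu, Matrix.transpose_one, Matrix.one_mul, Matrix.mul_one]

end Q208.DB
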