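import Pool.Agent.Q207.DB.NfS

/-!
# Complex symmetric matrices
-/

set_option autoImplicit false

open Matrix

namespace Q208.DB

open Q207.DB

/-- the Gram matrix of a family of vectors -/
lemma gram (n : ℕ) (B : Matrix (Fin n) (Fin n) ℂ) (v : Fin n → Fin n → ℂ) (i j : Fin n) :
    ((Matrix.of fun i j => v j i)ᵀ * B * (Matrix.of fun i j => v j i)) i j =
      v i ⬝ᵥ B *ᵥ v j := by
  have h1 : (Matrix.of fun i j => v j i)ᵀ = (Matrix.of v : Matrix (Fin n) (Fin n) ℂ) := rfl
  rw [h1, Matrix.mul_assoc, Matrix.mul_apply]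
  rfl

theorem sym_nf : S_Sym := by
  intro n B hB _
  let _ : Invertible (2 : ℂ) := invertibleOfNonzero two_ne_zero
  have hsym : LinearMap.IsSymm (Matrix.toBilin' B) := by
    refine ⟨fun x y => ?_⟩
    rw [Matrix.toBilin'_apply', Matrix.toBilin'_apply', RingHom.id_apply]
    rw [Matrix.dotProduct_mulVec, ← Matrix.mulVec_transpose, hB, dotProduct_comm]
  obtain ⟨v₀, hv₀⟩ := LinearMap.BilinForm.exists_orthogonal_basis hsym
  set v := v₀.reindex (finCongr (Module.finrank_fin_fun ℂ)) with hv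
  have horth : ∀ i j, i ≠ j → v i ⬝ᵥ B *ᵥ v j = 0 := by
    intro i j hij
    rw [← Matrix.toBilin'_apply', hv, Module.Basis.reindex_apply, Module.Basis.reindex_apply]
    apply hv₀
    intro h
    exact hij ((finCongr _).symm.injective h)
  set P : Matrix (Fin n) (Fin n) ℂ := Matrix.of fun i j => v j i with hP
  have hPb : P = (Pi.basisFun ℂ (Fin n)).toMatrix v := by
    ext i j
    rw [Module.Basis.toMatrix_apply, Pi.basisFun_repr]
    rfl
  set Q := v.toMatrix (Pi.basisFun ℂ (Fin n)) with hQ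
  have hPQ : P * Q = 1 := by
    rw [hPb, hQ]
    exact Module.Basis.toMatrix_mul_toMatrix_flip _ _
  have hD : Pᵀ * B * P = Matrix.diagonal (fun i => v i ⬝ᵥ B *ᵥ v i) := by
    ext i j
    rw [hP, gram, Matrix.diagonal_apply]
    split_ifs with h
    · rw [h]
    · exact horth i j h
  have hsq : ∀ i, ∃ e : ℂ, e * e = v i ⬝ᵥ B *ᵥ v i := by
    intro i
    obtain ⟨e, he⟩ := IsAlgClosed.exists_pow_nat_eq (v i ⬝ᵥ B *ᵥ v i) (n := 2) (by norm_num)
    exact ⟨e, by rw [← he]; ring⟩
  choose e he using hsq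
  refine ⟨Matrix.diagonal e * Q, ?_⟩
  have h1 : Matrix.diagonal e * Matrix.diagonal e = Pᵀ * B * P := by
    rw [hD, Matrix.diagonal_mul_diagonal]
    congr 1
    funext i
    exact he i
  calc (Matrix.diagonal e * Q)ᵀ * (Matrix.diagonal e * Q) =
        Qᵀ * (Matrix.diagonal e * Matrix.diagonal e) * Q := by
        rw [Matrix.transpose_mul, Matrix.diagonal_transpose]
        simp only [Matrix.mul_assoc]
    _ = (P * Q)ᵀ * B * (P * Q) := by
        rw [h1, Matrix.transpose_mul]
        simp only [Matrix.mul_assoc]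
    _ = B := by rw [hPQ, Matrix.transpose_one, Matrix.one_mul, Matrix.mul_one]

end Q208.DB
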